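import Mathlib

namespace Pool.Agent.H.MP_63a02b_an

open Filter Topology Finset

variable {X : Type} [NormedAddCommGroup X] [NormedSpace ℝ X]

def Nice (T : X →L[ℝ] X) (s : ℕ → X) (C : ℝ) (L : ℕ) : Prop :=
  (∀ a, T (s (a + 1)) = s a) ∧ (T ^ L) (s 0) = 0 ∧
    ∀ a p M : ℕ, ‖∑ t ∈ range M, (-1 : ℝ) ^ t • s (a + t * p)‖ ≤ C / (a + 1)

variable {T : X →L[ℝ] X} {s : ℕ → X} {C : ℝ} {L : ℕ}

theorem Nice.pw1 (h : Nice T s C L) (a k : ℕ) : (T ^ k) (s (a + k)) = s a := by
  induction k with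
  | zero => simp
  | succ k ih => rw [pow_succ, mul_apply_eq_comp, ← add_assoc, h.1, ih]

theorem Nice.pw0 (h : Nice T s C L) {a k : ℕ} (hk : a + L ≤ k) : (T ^ k) (s a) = 0 := by
  obtain ⟨d, rfl⟩ := Nat.exists_eq_add_of_le hk
  have := h.pw1 0 a
  rw [zero_add] at this
  rw [show a + L + d = d + L + a by ring, pow_add, pow_add, mul_apply_eq_comp,
    mul_apply_eq_comp, this, h.2.1, map_zero]

theorem Nice.C0 (h : Nice T s C L) : 0 ≤ C := by
  simpa using h.2.2 0 0 0

theorem Nice.one (h : Nice T s C L) (a : ℕ) : ‖s a‖ ≤ C / (a + 1) := by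
  simpa using h.2.2 a 0 1

theorem Nice.tail (h : Nice T s C L) (p M : ℕ) :
    ‖∑ t ∈ range (M + 1), (-1 : ℝ) ^ t • s (t * p) - s 0‖ ≤ C / (p + 1) := by
  rw [Finset.sum_range_succ']
  simp only [pow_zero, zero_mul, one_smul, add_sub_cancel_right]
  have : ∑ t ∈ range M, (-1 : ℝ) ^ (t + 1) • s ((t + 1) * p) =
      -∑ t ∈ range M, (-1 : ℝ) ^ t • s (p + t * p) := by
    rw [← Finset.sum_neg_distrib]
    refine Finset.sum_congr rfl fun t _ => ?_
    rw [pow_succ, show (t + 1) * p = p + t * p by ring]; simp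
  rw [this, norm_neg]
  exact h.2.2 p p M

def ND (T : X →L[ℝ] X) : Set X := {v | ∃ s C L, Nice T s C L ∧ s 0 = v}

theorem span_sub {e : ℕ → X} (h1 : ∀ n, T (e (n + 1)) = e n) (h0 : T (e 0) = 0)
    (hK : ∀ a p M : ℕ, ‖∑ t ∈ range M, (-1 : ℝ) ^ t • e (a + t * p)‖ ≤ 2 / (a + 1)) :
    (Submodule.span ℝ (Set.range e) : Set X) ⊆ ND T := by
  have he : Nice T e 2 1 := ⟨h1, by simpa using h0, hK⟩
  intro v hv
  induction hv using Submodule.span_induction with
  | mem x hx =>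
    obtain ⟨n, rfl⟩ := hx
    refine ⟨fun a => e (n + a), 2, n + 1, ⟨fun a => h1 _, he.pw0 (by omega), fun a p M => ?_⟩, rfl⟩
    simp only [← add_assoc]
    refine (hK (n + a) p M).trans ?_
    apply div_le_div_of_nonneg_left (by norm_num) (by positivity)
    push_cast; linarith [Nat.cast_nonneg (α := ℝ) n]
  | zero => exact ⟨fun _ => 0, 0, 0, ⟨by simp, by simp, by simp⟩, rfl⟩
  | add x y _ _ hx hy =>
    obtain ⟨s, C, L, a1, rfl⟩ := hx
    obtain ⟨s', C', L', a2, rfl⟩ := hy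
    refine ⟨fun a => s a + s' a, C + C', L + L', ⟨fun a => ?_, ?_, fun a p M => ?_⟩, rfl⟩
    · simp only [map_add, a1.1, a2.1]
    · rw [map_add, a1.pw0 (by omega), a2.pw0 (by omega), add_zero]
    · simp only [smul_add, Finset.sum_add_distrib, add_div]
      exact norm_add_le_of_le (a1.2.2 a p M) (a2.2.2 a p M)
  | smul c x _ hx =>
    obtain ⟨s, C, L, a1, rfl⟩ := hx
    refine ⟨fun a => c • s a, |c| * C, L, ⟨fun a => ?_, ?_, fun a p M => ?_⟩, rfl⟩
    · simp only [map_smul, a1.1]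
    · rw [map_smul, a1.2.1, smul_zero]
    · simp only [smul_comm _ c, ← Finset.smul_sum, norm_smul, Real.norm_eq_abs, mul_div_assoc]
      exact mul_le_mul_of_nonneg_left (a1.2.2 a p M) (abs_nonneg _)

theorem small (C : ℝ) {ε : ℝ} (hε : 0 < ε) : ∀ᶠ n : ℕ in atTop, C / (n + 1) < ε := by
  have := (tendsto_one_div_add_atTop_nhds_zero_nat (𝕜 := ℝ)).const_mul C
  rw [mul_zero] at this
  filter_upwards [this.eventually (gt_mem_nhds hε)] with n hn
  rwa [mul_one_div] at hn

theorem mixing (hd : Dense (ND T)) (U V : Set X) (hU : IsOpen U) (hV : IsOpen V)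
    (hU' : U.Nonempty) (hV' : V.Nonempty) :
    ∃ N : ℕ, ∀ n : ℕ, N ≤ n → ((⇑(T ^ n)) ⁻¹' V ∩ U).Nonempty := by
  obtain ⟨_, hu, s, C, L, a1, rfl⟩ := hd.inter_open_nonempty U hU hU'
  obtain ⟨_, hv, s', C', L', a2, rfl⟩ := hd.inter_open_nonempty V hV hV'
  obtain ⟨ε, hε, hb⟩ := Metric.isOpen_iff.mp hU _ hu
  obtain ⟨N, hN⟩ := eventually_atTop.mp ((small C' hε).and (eventually_ge_atTop L))
  refine ⟨N, fun n hn => ⟨s 0 + s' n, ?_, hb ?_⟩⟩
  · have := a2.pw1 0 n
    rw [zero_add] at this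
    rw [Set.mem_preimage, map_add, a1.pw0 (by have := (hN n hn).2; omega), this, zero_add]
    exact hv
  · rw [mem_ball_iff_norm, add_sub_cancel_left]
    exact (a2.one n).trans_lt (hN n hn).1

theorem periodic [CompleteSpace X] (hd : Dense (ND T)) :
    Dense {x : X | ∃ n : ℕ, 0 < n ∧ (T ^ n) x = x} := by
  rw [dense_iff_inter_open]
  intro U hU hU'
  obtain ⟨_, hu, s, C, L, a1, rfl⟩ := hd.inter_open_nonempty U hU hU'
  obtain ⟨ε, hε, hb⟩ := Metric.isOpen_iff.mp hU _ hu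
  obtain ⟨p, hp1, hp2, hp3⟩ := ((small C hε).and ((eventually_ge_atTop L).and
    (eventually_ge_atTop 1))).exists
  set u : ℕ → X := fun M => ∑ t ∈ range M, (-1 : ℝ) ^ t • s (t * p) with hu'
  have hc : CauchySeq u := by
    rw [Metric.cauchySeq_iff']
    intro δ hδ
    obtain ⟨N, hN⟩ := (small C hδ).exists
    refine ⟨N, fun n hn => ?_⟩
    obtain ⟨d, rfl⟩ := Nat.exists_eq_add_of_le hn
    simp only [hu', dist_eq_norm, Finset.sum_range_add, add_sub_cancel_left, pow_add, mul_smul,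
      ← Finset.smul_sum, norm_smul, add_mul]
    simp only [norm_pow, norm_neg, norm_one, one_pow, one_mul]
    refine (a1.2.2 (N * p) p d).trans_lt (lt_of_le_of_lt ?_ hN)
    apply div_le_div_of_nonneg_left a1.C0 (by positivity)
    have : N ≤ N * p := Nat.le_mul_of_pos_right _ hp3
    have : (N : ℝ) ≤ (N * p : ℕ) := by exact_mod_cast this
    linarith
  obtain ⟨P, hP⟩ := cauchySeq_tendsto_of_complete hc
  have hP1 : Tendsto (fun M => u (M + 1)) atTop (𝓝 P) := hP.comp (tendsto_add_atTop_nat 1)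
  have e : ∀ M, (T ^ p) (u (M + 1)) = -u M := by
    intro M
    simp only [hu', Finset.sum_range_succ', map_add, map_sum, map_smul, zero_mul]
    rw [a1.pw0 (by omega), smul_zero, add_zero, ← Finset.sum_neg_distrib]
    refine Finset.sum_congr rfl fun t _ => ?_
    rw [add_mul, one_mul, a1.pw1, pow_succ]; simp
  have e2 : (T ^ p) P = -P := by
    have := ((T ^ p).continuous.tendsto P).comp hP1
    simp only [Function.comp_def, e] at this
    exact tendsto_nhds_unique this hP.neg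
  refine ⟨P, hb ?_, p + p, by omega, ?_⟩
  · rw [mem_ball_iff_norm]
    exact (le_of_tendsto' (hP1.sub_const (s 0)).norm fun M => a1.tail p M).trans_lt hp1
  · rw [pow_add, mul_apply_eq_comp, e2, map_neg, e2, neg_neg]

theorem types : ∃ τ : ℕ → ℕ, ∀ k, ∃ G, ∀ M, ∃ m, M ≤ m ∧ m ≤ M + G ∧ τ m = k := by
  refine ⟨fun m => padicValNat 2 m, fun k => ⟨3 * 2 ^ k, fun M =>
    ⟨2 ^ k * (2 * (M / (2 * 2 ^ k)) + 3), ?_, ?_, ?_⟩⟩⟩
  · have := Nat.lt_mul_div_succ M (show 0 < 2 * 2 ^ k by positivity)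
    nlinarith [Nat.two_pow_pos k]
  · have := Nat.mul_div_le M (2 * 2 ^ k)
    nlinarith
  · show padicValNat 2 _ = k
    rw [padicValNat.mul (by positivity) (by omega), padicValNat.prime_pow,
      padicValNat.eq_zero_of_not_dvd (by omega), add_zero]

theorem ar1 {c m d w : ℝ} (hc : c ≤ m) (h3 : 0 ≤ m) (h2 : 0 < w) (h1 : w ≤ 4 * d) :
    c ≤ 4 * (m * w⁻¹) * (d + 1) := by
  have h4 : 4 * (m * w⁻¹) * (d + 1) = m * ((4 * d + 4) / w) := by ring
  have h5 : 1 ≤ (4 * d + 4) / w := by rw [le_div_iff₀ h2]; linarith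
  rw [h4]; nlinarith

theorem ar2 {t S p w L n : ℕ} (ht : t < 2 * S) (h2 : 4 * p * S ≤ w) (h3 : L ≤ p)
    (h : w * 2 ≤ n) : w + t * p + L ≤ n := by
  have h1 : (t + 1) * p ≤ 2 * S * p := Nat.mul_le_mul_right _ ht
  nlinarith

theorem ar3 {i S q w : ℕ} (hi : i < S) (h2 : 4 * q * S ≤ w) : 2 * (w + 2 * i * q) ≤ 3 * w := by
  have : 4 * q * i ≤ 4 * q * S := Nat.mul_le_mul_left _ hi.le
  nlinarith

theorem ar4 {t i q w L : ℕ} (ht : t < 2 * i) (h3 : L ≤ q) : w + t * q + L ≤ w + 2 * i * q := by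
  have h1 : (t + 1) * q ≤ 2 * i * q := Nat.mul_le_mul_right _ ht
  nlinarith

theorem ar5 {w q S N g : ℕ} (c2 : w < 4 * q * (S + 1)) (c3 : 8 * q ≤ w) (h : N ≤ w * g) :
    N ≤ 8 * q * g * S := by
  have c4 : w ≤ 8 * q * S := by nlinarith
  have := Nat.mul_le_mul_right g c4
  nlinarith

theorem fhc [CompleteSpace X] [TopologicalSpace.SeparableSpace X] (hd : Dense (ND T)) :
    ∃ x : X, ∀ U : Set X, IsOpen U → U.Nonempty →
      ∃ δ : ℝ, 0 < δ ∧ ∃ N₀ : ℕ, ∀ N : ℕ, N₀ ≤ N →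
        δ * (N : ℝ) ≤ (Nat.card {n : ℕ // n < N ∧ (T ^ n) x ∈ U} : ℝ) := by
  classical
  obtain ⟨D, D1, D2, D3⟩ :=
    (TopologicalSpace.IsSeparable.of_separableSpace (ND T)).exists_countable_dense_subset
  have D4 : Dense D := by
    intro x
    exact closure_minimal D3 isClosed_closure (hd x)
  obtain ⟨v, rfl⟩ := D2.exists_eq_range (D4.nonempty)
  choose s C L hN hs using fun a => D1 (Set.mem_range_self a)
  obtain ⟨τ, hτ⟩ := types
  set A : ℕ → ℕ := fun m => (Nat.unpair (τ m)).1 with hA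
  set p : ℕ → ℕ := fun m => L (A m) + (Nat.unpair (τ m)).2 + 1 with hp
  set S : ℕ → ℕ := fun m => 2 ^ m / (4 * p m) with hS
  have hSp : ∀ m, 4 * p m * S m ≤ 2 ^ m := fun m => Nat.mul_div_le _ _
  set Z : ℕ → X := fun m => if C (A m) ≤ m then
    ∑ t ∈ range (2 * S m), (-1 : ℝ) ^ t • s (A m) (2 ^ m + t * p m) else 0 with hZ
  set b : ℕ → ℝ := fun m => 4 * ((m : ℝ) ^ 1 * (1 / 2) ^ m) with hb
  have bs : Summable b :=
    (summable_pow_mul_geometric_of_norm_lt_one (R := ℝ) 1 (r := 1 / 2) (by norm_num)).mul_left 4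
  have late : ∀ m n : ℕ, 4 * n ≤ 3 * 2 ^ m → ‖(T ^ n) (Z m)‖ ≤ b m := by
    intro m n h
    simp only [hZ]
    split_ifs with hc
    · obtain ⟨d, hd⟩ := Nat.exists_eq_add_of_le (show n ≤ 2 ^ m by omega)
      have e : ∀ t, (T ^ n) (s (A m) (2 ^ m + t * p m)) = s (A m) (d + t * p m) := by
        intro t
        rw [← (hN (A m)).pw1 (d + t * p m) n, hd]
        congr 2; ring
      simp only [map_sum, map_smul, e]
      refine ((hN (A m)).2.2 d (p m) _).trans ?_
      have h1 : ((2 ^ m : ℕ) : ℝ) ≤ 4 * d := by exact_mod_cast (show 2 ^ m ≤ 4 * d by omega)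
      push_cast at h1
      have h2 : (0 : ℝ) < 2 ^ m := by positivity
      have h3 : (0 : ℝ) ≤ m := Nat.cast_nonneg _
      simp only [hb, pow_one, one_div, inv_pow]
      rw [div_le_iff₀ (by positivity)]
      exact ar1 hc h3 h2 h1
    · rw [map_zero, norm_zero]; simp only [hb]; positivity
  have early : ∀ m n : ℕ, 2 ^ (m + 1) ≤ n → (T ^ n) (Z m) = 0 := by
    intro m n h
    simp only [hZ]
    split_ifs with hc
    · simp only [map_sum, map_smul]
      refine Finset.sum_eq_zero fun t ht => ?_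
      rw [(hN (A m)).pw0, smul_zero]
      have h3 : L (A m) ≤ p m := by simp only [hp]; omega
      rw [pow_succ] at h
      exact ar2 (Finset.mem_range.mp ht) (hSp m) h3 h
    · exact map_zero _
  have Zs : Summable Z := Summable.of_norm_bounded bs fun m => by
    simpa using late m 0 (by omega)
  refine ⟨∑' m, Z m, fun U hU hU' => ?_⟩
  obtain ⟨_, hu, a, rfl⟩ := D4.inter_open_nonempty U hU hU'
  obtain ⟨ε, hε, hball⟩ := Metric.isOpen_iff.mp hU _ hu
  obtain ⟨j, hj⟩ := (small (C a) (half_pos hε)).exists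
  obtain ⟨G, hG⟩ := hτ (Nat.pair a j)
  set q := L a + j + 1 with hq
  have ev : ∀ᶠ m : ℕ in atTop, ∑' i, b (i + (m + 1)) < ε / 2 ∧ C a ≤ m ∧ 8 * q ≤ m :=
    (((tendsto_sum_nat_add b).comp (tendsto_add_atTop_nat 1)).eventually
      (gt_mem_nhds (half_pos hε))).and
      ((tendsto_natCast_atTop_atTop.eventually_ge_atTop _).and (eventually_ge_atTop _))
  obtain ⟨M0, hM0⟩ := eventually_atTop.mp ev
  have visit : ∀ m, M0 ≤ m → τ m = Nat.pair a j → ∀ i < S m,
      (T ^ (2 ^ m + 2 * i * q)) (∑' m, Z m) ∈ U := by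
    intro m hm hτm i hi
    obtain ⟨c1, c2, c3⟩ := hM0 m hm
    have eA : A m = a := by simp only [hA, hτm, Nat.unpair_pair]
    have ep : p m = q := by simp only [hp, eA, hτm, Nat.unpair_pair, hq]
    have h2 := hSp m
    rw [ep] at h2
    set n := 2 ^ m + 2 * i * q with hn
    have n1 : 2 * n ≤ 3 * 2 ^ m := ar3 hi h2
    have hsum : Summable fun m' => (T ^ n) (Z m') := Zs.map (T ^ n) (T ^ n).continuous
    apply hball
    rw [mem_ball_iff_norm, (T ^ n).map_tsum Zs, ← hsum.sum_add_tsum_nat_add (m + 1),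
      Finset.sum_range_succ, Finset.sum_eq_zero (fun m' hm' => early m' n (by
        have : 2 ^ (m' + 1) ≤ 2 ^ m :=
          Nat.pow_le_pow_right (by norm_num) (Finset.mem_range.mp hm')
        omega)), zero_add, add_sub_right_comm]
    have t1 : ‖∑' i, (T ^ n) (Z (i + (m + 1)))‖ ≤ ∑' i, b (i + (m + 1)) := by
      apply tsum_of_norm_bounded ((summable_nat_add_iff (m + 1)).mpr bs).hasSum
      intro i
      apply late
      have : 2 ^ (m + 1) ≤ 2 ^ (i + (m + 1)) := Nat.pow_le_pow_right (by norm_num) (by omega)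
      rw [pow_succ] at this
      omega
    have t2 : ‖(T ^ n) (Z m) - v a‖ ≤ C a / (q + 1) := by
      obtain ⟨d, hd⟩ := Nat.exists_eq_add_of_le (show 2 * i + 1 ≤ 2 * S m by omega)
      simp only [hZ, eA, ep, if_pos c2]
      rw [hd, add_assoc, Finset.sum_range_add, map_add, map_sum, map_sum, Finset.sum_eq_zero,
        zero_add, add_comm 1 d, ← hs a]
      · convert (hN a).tail q d using 3
        refine Finset.sum_congr rfl fun t _ => ?_
        rw [map_smul, ← (hN a).pw1 (t * q) n, pow_add, pow_mul]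
        simp only [even_two, Even.neg_pow, one_pow, one_mul]
        congr 3; rw [hn]; ring
      · intro t ht
        rw [map_smul, (hN a).pw0, smul_zero]
        exact ar4 (Finset.mem_range.mp ht) (by omega)
    have t3 : C a / (q + 1) ≤ C a / (j + 1) := by
      apply div_le_div_of_nonneg_left (hN a).C0 (by positivity)
      have : (j : ℝ) ≤ q := by exact_mod_cast (show j ≤ q by omega)
      linarith
    refine (norm_add_le _ _).trans_lt ?_
    linarith
  have q0 : 0 < q := by omega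
  refine ⟨1 / (8 * q * 2 ^ (G + 2)), by positivity, 2 ^ (M0 + G + 1), fun N hN' => ?_⟩
  have l1 : M0 + G + 1 ≤ Nat.log 2 N := Nat.le_log_of_pow_le (by norm_num) hN'
  have N0 : N ≠ 0 := by have := Nat.two_pow_pos (M0 + G + 1); omega
  have l2 : N < 2 ^ (Nat.log 2 N + 1) := Nat.lt_pow_succ_log_self (by norm_num) N
  have l3 : 2 ^ Nat.log 2 N ≤ N := Nat.pow_log_le_self 2 N0
  obtain ⟨m, m1, m2, m3⟩ := hG (Nat.log 2 N - G - 1)
  have hm : M0 ≤ m := by omega
  have ep : p m = q := by simp only [hp, hA, m3, Nat.unpair_pair, hq]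
  have h2 := hSp m
  rw [ep] at h2
  have l4 : 2 ^ (m + 1) ≤ 2 ^ Nat.log 2 N := Nat.pow_le_pow_right (by norm_num) (by omega)
  have l5 : 2 ^ (Nat.log 2 N + 1) ≤ 2 ^ (m + (G + 2)) :=
    Nat.pow_le_pow_right (by norm_num) (by omega)
  have c1 : S m ≤ Nat.card {n : ℕ // n < N ∧ (T ^ n) (∑' m, Z m) ∈ U} := by
    have : Finite {n : ℕ // n < N ∧ (T ^ n) (∑' m, Z m) ∈ U} :=
      ((Set.finite_lt_nat N).subset fun n hn => hn.1).to_subtype
    have := Nat.card_le_card_of_injective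
      (fun i : Fin (S m) => (⟨2 ^ m + 2 * i * q, by
        have := ar3 i.2 h2
        have := Nat.two_pow_pos m
        rw [pow_succ] at l4
        omega, visit m hm m3 i i.2⟩ : {n : ℕ // n < N ∧ (T ^ n) (∑' m, Z m) ∈ U})) (by
      intro i i' h
      simp only [Subtype.mk.injEq, add_right_inj] at h
      have := Nat.eq_of_mul_eq_mul_right q0 h
      exact Fin.ext (by omega))
    simpa using this
  have c2 : 2 ^ m < 4 * q * (S m + 1) := by
    simp only [hS, ep]; exact Nat.lt_mul_div_succ _ (by omega)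
  have c3 : 8 * q ≤ 2 ^ m := (hM0 m hm).2.2.trans (Nat.lt_two_pow_self).le
  have c5 : N ≤ 8 * q * 2 ^ (G + 2) * S m :=
    ar5 c2 c3 (by rw [← pow_add]; exact l2.le.trans l5)
  have c6 : (N : ℝ) ≤ 8 * q * 2 ^ (G + 2) * S m := by exact_mod_cast c5
  have c7 : (S m : ℝ) ≤ Nat.card {n : ℕ // n < N ∧ (T ^ n) (∑' m, Z m) ∈ U} := by
    exact_mod_cast c1
  refine le_trans ?_ c7
  rw [one_div, inv_mul_le_iff₀ (by positivity)]
  exact c6

omit [NormedSpace ℝ X] in
theorem tailsum [CompleteSpace X] {f : ℕ → X} (hf : Summable f) {ε : ℝ} (hε : 0 < ε) :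
    ∀ᶠ q : ℕ in atTop, ‖∑' k, f ((k + 1) * q)‖ ≤ ε := by
  obtain ⟨u, hu⟩ := summable_iff_vanishing_norm.mp hf ε hε
  filter_upwards [eventually_gt_atTop (u.sup id)] with q hq
  have inj : Function.Injective fun k => (k + 1) * q := fun k k' h => by
    have := Nat.eq_of_mul_eq_mul_right (show 0 < q by omega) h
    omega
  have hs := (hf.comp_injective inj).hasSum.tendsto_sum_nat
  refine le_of_tendsto' hs.norm fun M => ?_
  have := hu ((range M).image fun k => (k + 1) * q) (by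
    rw [Finset.disjoint_left]
    intro n hn hn'
    obtain ⟨k, _, rfl⟩ := Finset.mem_image.mp hn
    have : (k + 1) * q ≤ u.sup id := Finset.le_sup (f := id) hn'
    nlinarith)
  rw [Finset.sum_image fun k _ k' _ h => inj h] at this
  exact this.le

theorem obstruction [CompleteSpace X] (φ : X →L[ℝ] ℝ)
    (hφ : ∀ a : ℕ, ∀ f, (T ^ (2 * a + 1)) f = f → φ f = 0)
    {X₀ : Set X} {S : X → X} (h1 : ∀ x ∈ X₀, S x ∈ X₀)
    (h2 : ∀ x ∈ X₀, Summable (fun n : ℕ => (T ^ n) x) ∧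
      Summable (fun n : ℕ => S^[n] x) ∧ T (S x) = x) {x : X} (hx : x ∈ X₀) : φ x = 0 := by
  have m : ∀ n, S^[n] x ∈ X₀ := by
    intro n
    induction n with
    | zero => exact hx
    | succ n ih => rw [Function.iterate_succ_apply']; exact h1 _ ih
  have c : ∀ k n, (T ^ k) (S^[n + k] x) = S^[n] x := by
    intro k n
    induction k with
    | zero => simp
    | succ k ih =>
      rw [pow_succ, mul_apply_eq_comp, ← add_assoc, Function.iterate_succ_apply',
        (h2 _ (m _)).2.2, ih]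
  obtain ⟨s1, s2, -⟩ := h2 x hx
  have key : ∀ a : ℕ, φ (x + (∑' k, (T ^ ((k + 1) * (2 * a + 1))) x +
      ∑' k, S^[(k + 1) * (2 * a + 1)] x)) = 0 := by
    intro a
    apply hφ a
    set q := 2 * a + 1 with hq
    have inj : Function.Injective fun k => k * q := fun k k' h =>
      Nat.eq_of_mul_eq_mul_right (show 0 < q by omega) h
    have a1 : Summable fun k => (T ^ (k * q)) x := s1.comp_injective inj
    have a2 : Summable fun k => S^[k * q] x := s2.comp_injective inj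
    have a3 : Summable fun k => (T ^ ((k + 1) * q)) x := (summable_nat_add_iff 1).mpr a1
    have a4 : Summable fun k => S^[(k + 1) * q] x := (summable_nat_add_iff 1).mpr a2
    rw [map_add, map_add, (T ^ q).map_tsum a3, (T ^ q).map_tsum a4]
    have e1 : ∀ k, (T ^ q) (S^[(k + 1) * q] x) = S^[k * q] x := fun k => by
      rw [add_mul, one_mul, c]
    have e2 : ∀ k, (T ^ q) ((T ^ ((k + 1) * q)) x) = (T ^ ((k + 1 + 1) * q)) x := fun k => by
      rw [← mul_apply_eq_comp, ← pow_add]; congr 2; ring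
    simp only [e1, e2]
    rw [a2.tsum_eq_zero_add, a3.tsum_eq_zero_add]
    simp only [zero_mul, Function.iterate_zero, id, zero_add, one_mul]
    abel
  apply eq_of_forall_dist_le
  intro ε hε
  have ε' : 0 < ε / (2 * (‖φ‖ + 1)) := by positivity
  obtain ⟨N, hN⟩ := eventually_atTop.mp ((tailsum s1 ε').and (tailsum s2 ε'))
  obtain ⟨b1, b2⟩ := hN (2 * N + 1) (by omega)
  have := key N
  rw [map_add, add_eq_zero_iff_eq_neg] at this
  rw [dist_zero_right, this, norm_neg]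
  refine (φ.le_opNorm _).trans ?_
  have b3 := norm_add_le_of_le b1 b2
  have b4 : (‖φ‖ + 1) * (ε / (2 * (‖φ‖ + 1)) + ε / (2 * (‖φ‖ + 1))) = ε := by field_simp; ring
  rw [← b4]
  exact mul_le_mul (by linarith) b3 (norm_nonneg _) (by positivity)

end Pool.Agent.H.MP_63a02b_an
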