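import Mathlib

namespace Pool.Agent.H.MP_63a02b_an

open Filter Topology Finset BoundedContinuousFunction

abbrev ι := ℕ × ℤ × ℕ
abbrev E := ι →ᵇ ℝ

noncomputable def ind (a : ℕ) (r : ℤ) (n : ℕ) : ℝ :=
  if ((2 * a + 1 : ℕ) : ℤ) ∣ (n : ℤ) - r then 1 else 0

noncomputable def ev (n : ℕ) (i : ι) : ℝ :=
  if n ≤ i.2.2 then ind i.1 i.2.1 n / ((2 * i.1 + 1) * (i.2.2 + 1)) else 0

theorem ind_abs (a : ℕ) (r : ℤ) (n : ℕ) : |ind a r n| ≤ 1 := by
  unfold ind; split_ifs <;> simp

theorem ev_abs (n : ℕ) (i : ι) : |ev n i| ≤ 1 / (i.2.2 + 1) := by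
  unfold ev
  split_ifs
  · rw [abs_div, abs_of_pos (show (0 : ℝ) < (2 * i.1 + 1) * (i.2.2 + 1) by positivity)]
    apply div_le_div₀ zero_le_one (ind_abs _ _ _) (by positivity)
    have : (0 : ℝ) ≤ i.1 := Nat.cast_nonneg _
    have : (0 : ℝ) ≤ i.2.2 := Nat.cast_nonneg _
    nlinarith
  · simp; positivity

noncomputable def eE (n : ℕ) : E := ofNormedAddCommGroupDiscrete (ev n) 1 fun i =>
  (ev_abs n i).trans (by
    rw [div_le_one (by positivity)]; linarith [Nat.cast_nonneg (α := ℝ) i.2.2])

theorem eE_apply (n : ℕ) (i : ι) : eE n i = ev n i := rfl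

noncomputable def tf (f : E) (i : ι) : ℝ :=
  ((i.2.2 + 2) * f (i.1, i.2.1 + 1, i.2.2 + 1) - f (i.1, i.2.1 + 1, 0)) / (i.2.2 + 1)

theorem tf_abs (f : E) (i : ι) : ‖tf f i‖ ≤ 3 * ‖f‖ := by
  unfold tf
  have h0 : (0 : ℝ) ≤ i.2.2 := Nat.cast_nonneg _
  have h1 := f.norm_coe_le_norm (i.1, i.2.1 + 1, i.2.2 + 1)
  have h2 := f.norm_coe_le_norm (i.1, i.2.1 + 1, 0)
  rw [norm_div, Real.norm_of_nonneg (show (0 : ℝ) ≤ i.2.2 + 1 by positivity),
    div_le_iff₀ (by positivity)]
  refine (norm_sub_le _ _).trans ?_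
  rw [norm_mul, Real.norm_of_nonneg (show (0 : ℝ) ≤ i.2.2 + 2 by positivity)]
  nlinarith [norm_nonneg f]

noncomputable def T0 : E →L[ℝ] E := LinearMap.mkContinuous
  { toFun := fun f => ofNormedAddCommGroupDiscrete (tf f) (3 * ‖f‖) (tf_abs f)
    map_add' := fun f g => by
      ext i
      simp only [coe_ofNormedAddCommGroupDiscrete, BoundedContinuousFunction.coe_add, Pi.add_apply, tf]; ring
    map_smul' := fun c f => by
      ext i
      simp only [coe_ofNormedAddCommGroupDiscrete, BoundedContinuousFunction.coe_smul, tf, smul_eq_mul, RingHom.id_apply]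
      ring } 3 fun f => (norm_le (by positivity)).mpr (tf_abs f)

theorem T0_apply (f : E) (i : ι) : T0 f i = tf f i := rfl

theorem T0_succ (n : ℕ) : T0 (eE (n + 1)) = eE n := by
  ext ⟨a, r, N⟩
  have e : ind a (r + 1) (n + 1) = ind a r n := by
    unfold ind; congr 1; push_cast; ring_nf
  simp only [T0_apply, tf, eE_apply, ev, add_le_add_iff_right, e]
  rw [if_neg (show ¬ n + 1 ≤ 0 by omega)]
  split_ifs
  · push_cast; field_simp; ring
  · simp

theorem T0_zero : T0 (eE 0) = 0 := by
  ext ⟨a, r, N⟩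
  simp only [T0_apply, tf, eE_apply, ev, Nat.zero_le, if_true, BoundedContinuousFunction.coe_zero, Pi.zero_apply]
  push_cast; field_simp; ring

theorem alt (q : ℕ) (hq : 0 < q) (g : ℕ → ℝ) (h1 : ∀ t, |g t| ≤ 1) (h2 : ∀ t, g (t + q) = -g t)
    (M : ℕ) : |∑ t ∈ range M, g t| ≤ 2 * q := by
  induction M using Nat.strong_induction_on with
  | _ M ih =>
    by_cases h : M < 2 * q
    · refine (Finset.abs_sum_le_sum_abs _ _).trans
        ((Finset.sum_le_sum fun t _ => h1 t).trans ?_)
      simp only [Finset.sum_const, Finset.card_range, nsmul_eq_mul, mul_one]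
      exact_mod_cast h.le
    · obtain ⟨d, rfl⟩ := Nat.exists_eq_add_of_le (not_lt.mp h)
      have e : ∑ t ∈ range (2 * q + d), g t = ∑ t ∈ range d, g t := by
        rw [two_mul, Finset.sum_range_add, Finset.sum_range_add]
        have e1 : ∀ t, g (q + t) = -g t := fun t => by rw [add_comm, h2]
        have e2 : ∀ t, g (q + q + t) = g t := fun t => by rw [add_assoc, e1, e1, neg_neg]
        simp only [e1, e2, Finset.sum_neg_distrib]; ring
      rw [e]; exact ih d (by omega)

theorem key (b p M : ℕ) : ‖∑ t ∈ range M, (-1 : ℝ) ^ t • eE (b + t * p)‖ ≤ 2 / (b + 1) := by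
  rw [norm_le (by positivity)]
  rintro ⟨a, r, N⟩
  simp only [BoundedContinuousFunction.coe_sum, Finset.sum_apply, BoundedContinuousFunction.coe_smul, smul_eq_mul, eE_apply, ev]
  by_cases hb : b ≤ N
  · obtain ⟨M', hM'⟩ : ∃ M', (range M).filter (fun t => b + t * p ≤ N) = range M' := by
      classical
      by_cases h : ∃ t, ¬ (t < M ∧ b + t * p ≤ N)
      · refine ⟨Nat.find h, ?_⟩
        ext t
        rw [Finset.mem_filter, Finset.mem_range, Finset.mem_range, Nat.lt_find_iff]
        constructor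
        · rintro ⟨h1, h2⟩ m hm
          rw [not_not]
          exact ⟨by omega, le_trans (Nat.add_le_add_left (Nat.mul_le_mul_right _ hm) _) h2⟩
        · intro h'
          exact not_not.mp (h' t le_rfl)
      · exact (h ⟨M, by simp⟩).elim
    simp only [mul_ite, mul_zero]
    rw [← Finset.sum_filter, hM']
    simp only [← mul_div_assoc, ← Finset.sum_div]
    have := alt (2 * a + 1) (by omega) (fun t => (-1 : ℝ) ^ t * ind a r (b + t * p))
      (fun t => by rw [abs_mul, abs_pow, abs_neg, abs_one, one_pow, one_mul]; exact ind_abs _ _ _)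
      (fun t => by
        have e : ind a r (b + (t + (2 * a + 1)) * p) = ind a r (b + t * p) := by
          unfold ind
          congr 1
          apply propext
          have : ((b + (t + (2 * a + 1)) * p : ℕ) : ℤ) - r =
              ((b + t * p : ℕ) : ℤ) - r + ((2 * a + 1 : ℕ) : ℤ) * p := by push_cast; ring
          rw [this]
          exact dvd_add_left (dvd_mul_right _ _)
        simp only [e]
        rw [pow_add, pow_succ, pow_mul]; simp) M'
    rw [Real.norm_eq_abs, abs_div,
      abs_of_pos (show (0 : ℝ) < (2 * a + 1) * (N + 1) by positivity),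
      div_le_div_iff₀ (by positivity) (by positivity)]
    push_cast at this
    have h1 : (b : ℝ) + 1 ≤ N + 1 := by exact_mod_cast Nat.succ_le_succ hb
    calc _ ≤ 2 * (2 * (a : ℝ) + 1) * (N + 1) :=
          mul_le_mul this h1 (by positivity) (by positivity)
      _ = _ := by ring
  · rw [Finset.sum_eq_zero, norm_zero]
    · positivity
    · intro t _
      rw [if_neg (by omega), mul_zero]

noncomputable def XX : Submodule ℝ E := (Submodule.span ℝ (Set.range eE)).topologicalClosure

theorem Xind {P : E → Prop} (hc : IsClosed {f | P f}) (h1 : ∀ n, P (eE n)) (h0 : P 0)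
    (ha : ∀ f g, P f → P g → P (f + g)) (hs : ∀ (c : ℝ) f, P f → P (c • f)) :
    ∀ f ∈ XX, P f := by
  intro f hf
  have : (Submodule.span ℝ (Set.range eE) : Set E) ⊆ {f | P f} := by
    intro g hg
    induction hg using Submodule.span_induction with
    | mem x hx => obtain ⟨n, rfl⟩ := hx; exact h1 n
    | zero => exact h0
    | add x y _ _ hx hy => exact ha _ _ hx hy
    | smul c x _ hx => exact hs _ _ hx
  exact hc.closure_subset_iff.mpr this hf

theorem eE_mem (n : ℕ) : eE n ∈ XX :=
  Submodule.le_topologicalClosure _ (Submodule.subset_span (Set.mem_range_self n))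

theorem T0_mem : ∀ f ∈ XX, T0 f ∈ XX := by
  apply Xind
  · exact (Submodule.isClosed_topologicalClosure _).preimage T0.continuous
  · rintro (_ | n)
    · rw [T0_zero]; exact XX.zero_mem
    · rw [T0_succ]; exact eE_mem n
  · rw [map_zero]; exact XX.zero_mem
  · intro f g hf hg; rw [map_add]; exact XX.add_mem hf hg
  · intro c f hf; rw [map_smul]; exact XX.smul_mem c hf

theorem cev (i : ι) : Continuous fun f : E => f i := continuous_eval_const i

theorem P1 (a : ℕ) (r : ℤ) (N : ℕ) : ∀ f ∈ XX, f (a, r + (2 * a + 1 : ℕ), N) = f (a, r, N) := by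
  apply Xind
  · exact isClosed_eq (cev _) (cev _)
  · intro n
    have e : ind a (r + (2 * a + 1 : ℕ)) n = ind a r n := by
      unfold ind
      congr 1
      apply propext
      rw [← sub_sub]
      exact dvd_sub_left (dvd_refl _)
    simp only [eE_apply, ev, e]
  · rfl
  · intro f g hf hg; simp only [BoundedContinuousFunction.coe_add, Pi.add_apply, hf, hg]
  · intro c f hf; simp only [BoundedContinuousFunction.coe_smul, hf]

theorem P2 (a : ℕ) (r : ℤ) : ∀ f ∈ XX, Tendsto (fun N => f (a, r, N)) atTop (𝓝 0) := by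
  apply Xind
  · apply isClosed_of_closure_subset
    intro f hf
    rw [Set.mem_ofPred_eq, Metric.tendsto_nhds]
    intro ε hε
    obtain ⟨g, hg, hd⟩ := Metric.mem_closure_iff.mp hf _ (half_pos hε)
    filter_upwards [Metric.tendsto_nhds.mp hg _ (half_pos hε)] with N hN
    have := dist_coe_le_dist (f := f) (g := g) (a, r, N)
    have := dist_triangle (f (a, r, N)) (g (a, r, N)) 0
    linarith
  · intro n
    exact squeeze_zero_norm (fun N => ev_abs n (a, r, N)) tendsto_one_div_add_atTop_nhds_zero_nat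
  · exact tendsto_const_nhds
  · intro f g hf hg; simpa using hf.add hg
  · intro c f hf; simpa using hf.const_mul c

theorem P3 (a : ℕ) : ∀ f ∈ XX, (2 * a + 1 : ℝ) ^ 2 * f (a, 0, 2 * a) = f (0, 0, 0) := by
  apply Xind
  · exact isClosed_eq (continuous_const.mul (cev _)) (cev _)
  · intro n
    simp only [eE_apply, ev, ind]
    rcases Nat.eq_zero_or_pos n with rfl | hn
    · simp; field_simp
    · rw [if_neg (show ¬ n ≤ 0 by omega)]
      split_ifs with h1 h2
      · rw [sub_zero] at h2
        have := Nat.le_of_dvd hn (Int.natCast_dvd_natCast.mp h2)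
        omega
      · simp
      · simp
  · simp
  · intro f g hf hg; simp only [BoundedContinuousFunction.coe_add, Pi.add_apply, ← hf, ← hg]; ring
  · intro c f hf; simp only [BoundedContinuousFunction.coe_smul, ← hf, smul_eq_mul]; ring

noncomputable def gg (f : E) (a : ℕ) (r : ℤ) (N : ℕ) : ℝ := N * f (a, r, N - 1)

theorem gg_T (f : E) (a : ℕ) (r : ℤ) (N : ℕ) :
    gg (T0 f) a r N = gg f a (r + 1) (N + 1) - gg f a (r + 1) 1 := by
  rcases N with _ | N
  · simp [gg]
  · simp only [gg, T0_apply, tf, Nat.add_sub_cancel]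
    push_cast; field_simp; simp; ring_nf

theorem gg_pow (f : E) (a k : ℕ) (r : ℤ) (N : ℕ) :
    gg ((T0 ^ k) f) a r N = gg f a (r + k) (N + k) - gg f a (r + k) k := by
  induction k generalizing r N with
  | zero => simp [gg]
  | succ k ih =>
    rw [pow_succ', mul_apply_eq_comp, gg_T, ih, ih]
    push_cast
    rw [show r + 1 + k = r + (k + 1) by ring, show N + 1 + k = N + (k + 1) by ring, add_comm 1 k]
    ring

theorem odd_per (a : ℕ) {f : E} (hf : f ∈ XX) (h : (T0 ^ (2 * a + 1)) f = f) :
    f (0, 0, 0) = 0 := by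
  have e : ∀ N, gg f a (0 + (2 * a + 1 : ℕ)) N = gg f a 0 N := fun N => by
    simp only [gg, P1 a 0 _ f hf]
  have h1 : ∀ N, gg f a 0 (N + (2 * a + 1)) = gg f a 0 N + gg f a 0 (2 * a + 1) := by
    intro N
    have := gg_pow f a (2 * a + 1) 0 N
    rw [h, e, e] at this
    linarith
  have h2 : ∀ j : ℕ, gg f a 0 (j * (2 * a + 1)) = j * gg f a 0 (2 * a + 1) := by
    intro j
    induction j with
    | zero => simp [gg]
    | succ j ih => rw [add_mul, one_mul, h1, ih]; push_cast; ring
  have h3 : ∀ j : ℕ, f (a, 0, (j + 1) * (2 * a + 1) - 1) = f (a, 0, 2 * a) := by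
    intro j
    have := h2 (j + 1)
    simp only [gg, Nat.add_sub_cancel] at this
    push_cast at this
    rw [← mul_assoc] at this
    exact mul_left_cancel₀ (by positivity) this
  have h4 : Tendsto (fun j : ℕ => (j + 1) * (2 * a + 1) - 1) atTop atTop :=
    tendsto_atTop_mono (fun j => by
      have : j + 1 ≤ (j + 1) * (2 * a + 1) := Nat.le_mul_of_pos_right _ (by omega)
      simp only [id]; omega) tendsto_id
  have h5 := (P2 a 0 f hf).comp h4
  simp only [Function.comp_def, h3] at h5
  rw [← P3 a f hf, tendsto_nhds_unique tendsto_const_nhds h5, mul_zero]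

end Pool.Agent.H.MP_63a02b_an
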