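import Pool.Agent.H.MP_63a02b_an.A
import Pool.Agent.H.MP_63a02b_an.B

namespace Pool.Agent.H.MP_63a02b_an

open Filter Topology

noncomputable def TT : XX →L[ℝ] XX := T0.restrict T0_mem

noncomputable def ee (n : ℕ) : XX := ⟨eE n, eE_mem n⟩

theorem TT_pow (k : ℕ) : ∀ f : XX, (((TT ^ k) f : XX) : E) = (T0 ^ k) f := by
  induction k with
  | zero => intro f; rfl
  | succ k ih =>
    intro f
    rw [pow_succ, pow_succ, mul_apply_eq_comp, mul_apply_eq_comp, ih]; rfl

theorem dense_span : Dense (Submodule.span ℝ (Set.range ee) : Set XX) := by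
  have e1 : Subtype.val '' (Submodule.span ℝ (Set.range ee) : Set XX) =
      (Submodule.span ℝ (Set.range eE) : Set E) := by
    have := Submodule.map_span XX.subtype (Set.range ee)
    rw [← Set.range_comp] at this
    exact congrArg (fun p : Submodule ℝ E => (p : Set E)) this
  refine Subtype.dense_iff.mpr fun x hx => ?_
  exact e1 ▸ hx

theorem key2 (a p M : ℕ) :
    ‖∑ t ∈ Finset.range M, (-1 : ℝ) ^ t • ee (a + t * p)‖ ≤ 2 / (a + 1) := by
  have := key a p M
  rw [← Submodule.norm_coe]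
  simpa [ee] using this

theorem denseND : Dense (ND (X := XX) TT) :=
  Dense.mono (span_sub (X := XX) (T := TT) (e := ee) (fun n => Subtype.ext (T0_succ n))
    (Subtype.ext T0_zero) key2) dense_span

noncomputable def ph : XX →L[ℝ] ℝ :=
  (BoundedContinuousFunction.evalCLM ℝ ((0, 0, 0) : ι)).comp XX.subtypeL

theorem ph_per (a : ℕ) (f : XX) (hf : (TT ^ (2 * a + 1)) f = f) : ph f = 0 :=
  odd_per a (f := f.1) f.2 (by rw [← TT_pow, hf])

theorem ph_one : ph (ee 0) ≠ 0 := by
  show ev 0 (0, 0, 0) ≠ 0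
  simp [ev, ind]

theorem model : ∃ (X : Type) (_ : NormedAddCommGroup X) (_ : NormedSpace ℝ X)
    (_ : CompleteSpace X) (_ : TopologicalSpace.SeparableSpace X) (T : X →L[ℝ] X)
    (φ : X →L[ℝ] ℝ), Dense (ND T) ∧ (∀ a : ℕ, ∀ f, (T ^ (2 * a + 1)) f = f → φ f = 0) ∧
      ∃ x, φ x ≠ 0 :=
  ⟨XX, inferInstance, inferInstance,
    (Submodule.isClosed_topologicalClosure _).completeSpace_coe,
    ((Set.countable_range eE).isSeparable.span (R := ℝ)).closure.separableSpace,
    TT, ph, denseND, ph_per, ee 0, ph_one⟩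

end Pool.Agent.H.MP_63a02b_an
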